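import Pool.Agent.helper69.DH.SpecR2

/-! # d2: row rPLF (helper28) -/

set_option autoImplicit false

open Filter Topology MeasureTheory
open scoped commutatorElement

namespace Pool.Agent.helper90.DH

open Pool.Agent.helper64.D2

theorem rPLF_ci (s : ℕ) (k : ℤ) (x : ℝ) (hx : x ∈ cell s k) : ci s x = k := by
  have h2 : (0 : ℝ) < 2 ^ s := by positivity
  obtain ⟨h3, h4⟩ := hx
  rw [div_le_iff₀ h2] at h3
  rw [lt_div_iff₀ h2] at h4
  rw [ci, Int.floor_eq_iff]
  constructor <;> linarith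

theorem rPLF_sub (s : ℕ) (f g : ℝ → ℝ) (hf : PA s f) (hg : PA s g) : PA s (fun x => f x - g x) := by
  intro k
  obtain ⟨a, b, h⟩ := hf k
  obtain ⟨a', b', h'⟩ := hg k
  refine ⟨a - a', b - b', fun x hx => ?_⟩
  simp only [h x hx, h' x hx]
  ring

theorem rPLF_par (s : ℕ) (x z : ℝ) (h : ci (s + 1) x = ci (s + 1) z) : ci s x = ci s z := by
  have key : ∀ x : ℝ, ci s x = ci (s + 1) x / 2 := by
    intro x
    rw [ci, ci, Int.floor_eq_iff]
    have h1 := Int.floor_le ((2 : ℝ) ^ (s + 1) * x)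
    have h2 := Int.lt_floor_add_one ((2 : ℝ) ^ (s + 1) * x)
    set n := ⌊(2 : ℝ) ^ (s + 1) * x⌋ with hn
    have h3 : n / 2 * 2 ≤ n := Int.ediv_mul_le n (by norm_num)
    have h4 : n < (n / 2 + 1) * 2 := Int.lt_ediv_add_one_mul_self n (by norm_num)
    have h3r : ((n / 2 : ℤ) : ℝ) * 2 ≤ (n : ℝ) := by exact_mod_cast h3
    have h4r : (n : ℝ) + 1 ≤ (((n / 2 : ℤ) : ℝ) + 1) * 2 := by
      have : n + 1 ≤ (n / 2 + 1) * 2 := h4
      exact_mod_cast this
    have h5 : (2 : ℝ) ^ (s + 1) * x = 2 * ((2 : ℝ) ^ s * x) := by ring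
    rw [h5] at h1 h2
    constructor <;> linarith
  rw [key, key, h]

theorem rPLF_fr (s : ℕ) (x z : ℝ) (h : ci s x = ci s z) : fr s x - fr s z = 2 ^ s * (x - z) := by
  simp only [ci] at h
  simp only [fr, Int.fract, h]
  ring

theorem rPLF_Mop (q : ℕ) (c : ℕ → DD) (a : ℝ) (f : ℝ → ℝ) (x : ℝ) : Mop q c (fun z => a * f z) x = a * Mop q c f x := by
  simp only [Mop]
  rw [← Finset.mul_sum, mul_div_assoc]

theorem rPLF_half (th M : ℝ) : th / 2 < |1 / 2 * M| ↔ th < |M| := by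
  rw [abs_mul, abs_of_pos (by norm_num : (0 : ℝ) < 1 / 2)]
  constructor <;> intro h <;> linarith

theorem rPLF (hLBM : LBM_stmt) (hLEA : LEA_stmt) (hLEB : LEB_stmt) (hLEN : LEN_stmt) : rPLF_stmt := by
  intro N s0 y hy hs0
  obtain ⟨hPA, hsup, hb⟩ := hy
  obtain ⟨-, -, hBMp, -, -, -⟩ := hLBM
  obtain ⟨hA1, hA2, -, -, hA5, hA6, -⟩ := hLEA
  obtain ⟨-, hB2, hB3⟩ := hLEB
  have hBM : BM y := by
    refine hBMp N y hPA fun x hx => hsup x fun h => hx ⟨?_, ?_⟩
    · have := h.1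
      linarith
    · have := h.2
      linarith
  have hE : ∀ s x, |Es s y x| ≤ 4 := fun s x => by
    have := hB2 s y 1 hBM hb x
    linarith
  have hu : ∀ s t x, |Es s y x - Es t y x| ≤ 8 := fun s t x => by
    have h1 := hE s x
    have h2 := hE t x
    rw [abs_le] at h1 h2 ⊢
    constructor <;> linarith [h1.1, h1.2, h2.1, h2.2]
  have hz : ∀ s, s0 ≤ s → ∀ x, x ∉ Set.Ico (9 / 32 : ℝ) (23 / 32) → Es s y x = 0 := by
    intro s hs x hx
    refine hB3 s y (29 / 100) (7 / 10) hsup x fun h => hx ?_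
    have h10 : (1 : ℝ) / 2 ^ s ≤ 1 / 1024 := by
      have h1 : (2 : ℝ) ^ 10 ≤ 2 ^ s := pow_le_pow_right₀ (by norm_num) (hs0.trans hs)
      have h2 : (1 : ℝ) / 2 ^ s ≤ 1 / 2 ^ 10 := one_div_le_one_div_of_le (by positivity) h1
      norm_num at h2 ⊢
      exact h2
    obtain ⟨h3, h4⟩ := h
    constructor <;> linarith
  have hPE : ∀ s r, r ≤ s → PA s (Es r y) := fun s r h => hA1 r s _ h (hA2 r y)
  have hLip : ∀ s r t : ℕ, r ≤ s → t ≤ s → ∀ x z, ci s x = ci s z →
      |(Es r y x - Es t y x) - (Es r y z - Es t y z)| ≤ 16 * 2 ^ s * |x - z| := by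
    intro s r t hr ht x z hxz
    have h1 := (hLEN s (fun x => Es r y x - Es t y x) (rPLF_sub s _ _ (hPE s r hr) (hPE s t ht))).2.2.2 8 (fun x => hu r t x)
    have h2 := h1.2 x z hxz
    have h3 : 2 * 2 ^ s * 8 * |x - z| = 16 * 2 ^ s * |x - z| := by ring
    rw [h3] at h2
    exact h2
  have hpl : ∀ s r t : ℕ, r ≤ s → t ≤ s → PL s 32 (fun x => Es r y x - Es t y x) := by
    intro s r t hr ht
    refine ⟨fun x => (hu r t x).trans (by norm_num), fun k x hx z hz' => ?_⟩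
    have h1 := hLip s r t hr ht x z ((rPLF_ci s k x hx).trans (rPLF_ci s k z hz').symm)
    have h2 : 16 * 2 ^ s * |x - z| ≤ 32 * 2 ^ s * |x - z| :=
      mul_le_mul_of_nonneg_right (by nlinarith [show (0 : ℝ) < 2 ^ s by positivity]) (abs_nonneg _)
    exact h1.trans h2
  refine ⟨fun s hs => ⟨fun x => ⟨hE s x, hu s s0 x, fun t _ => ?_⟩, fun x => ?_, fun x hx => ⟨?_, ?_, ?_⟩, ?_, ?_, ?_⟩, ?_⟩
  · simp only [us]
    have := hu s t x
    have h : Es s y x - Es s0 y x - (Es t y x - Es s0 y x) = Es s y x - Es t y x := by ring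
    rw [h]
    exact this
  · simp only [us, Ds]
    ring
  · simp only [us, hz s hs x hx, hz s0 le_rfl x hx, sub_zero]
  · simp only [Ds, hz s hs x hx, hz (s + 1) (by omega) x hx, sub_zero]
  · exact hz s hs x hx
  · exact hpl (s + 1) s s0 (by omega) (by omega)
  · exact hpl (s + 1) (s + 1) s0 (by omega) (by omega)
  · refine ⟨fun x => ?_, fun k x hx z hz' => ?_⟩
    · have h1 : |fr s x| ≤ 1 := by
        rw [fr, abs_of_nonneg (Int.fract_nonneg _)]
        exact (Int.fract_lt_one _).le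
      have h2 : |Ds s y x| ≤ 8 := hu (s + 1) s x
      rw [abs_mul]
      calc |fr s x| * |Ds s y x| ≤ 1 * 8 := mul_le_mul h1 h2 (abs_nonneg _) (by norm_num)
        _ ≤ 32 := by norm_num
    · have hci := (rPLF_ci (s + 1) k x hx).trans (rPLF_ci (s + 1) k z hz').symm
      have h1 : |fr s x| ≤ 1 := by
        rw [fr, abs_of_nonneg (Int.fract_nonneg _)]
        exact (Int.fract_lt_one _).le
      have h2 : |Ds s y z| ≤ 8 := hu (s + 1) s z
      have h3 : |Ds s y x - Ds s y z| ≤ 16 * 2 ^ (s + 1) * |x - z| := hLip (s + 1) (s + 1) s le_rfl (by omega) x z hci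
      have h4 := rPLF_fr s x z (rPLF_par s x z hci)
      have h5 : fr s x * Ds s y x - fr s z * Ds s y z = fr s x * (Ds s y x - Ds s y z) + (fr s x - fr s z) * Ds s y z := by ring
      simp only
      rw [h5]
      refine (abs_add_le _ _).trans ?_
      rw [abs_mul, abs_mul, h4, abs_mul, abs_of_pos (show (0 : ℝ) < 2 ^ s by positivity)]
      have h6 : |fr s x| * |Ds s y x - Ds s y z| ≤ 1 * (16 * 2 ^ (s + 1) * |x - z|) := mul_le_mul h1 h3 (abs_nonneg _) (by norm_num)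
      have h7 : 2 ^ s * |x - z| * |Ds s y z| ≤ 2 ^ s * |x - z| * 8 := mul_le_mul_of_nonneg_left h2 (by positivity)
      have h8 : (0 : ℝ) ≤ 2 ^ s * |x - z| := by positivity
      have h9 : (2 : ℝ) ^ (s + 1) = 2 * 2 ^ s := by ring
      rw [h9] at h6 ⊢
      nlinarith
  · intro S S1 q c th hS s hs hsS
    have hg : ∀ r, r ≤ S + 1 → ∀ z, Es r (fun x => 1 / 2 * Es (S + 1) y x) z = 1 / 2 * Es r y z := by
      intro r hr z
      rw [hA5 r (1 / 2) (Es (S + 1) y) z, (hA6 r (S + 1) y hBM hr z).1]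
    have e1 : ∀ x, Mop q c (fun z => Es s (fun x => 1 / 2 * Es (S + 1) y x) z - Es s0 (fun x => 1 / 2 * Es (S + 1) y x) z) x =
        1 / 2 * Mop q c (fun z => Es s y z - Es s0 y z) x := by
      intro x
      rw [← rPLF_Mop]
      congr 1
      funext z
      rw [hg s (by omega) z, hg s0 (by omega) z]
      ring
    have e2 : ∀ x, Mop q c (fun z => Es (s + 1) (fun x => 1 / 2 * Es (S + 1) y x) z - Es s0 (fun x => 1 / 2 * Es (S + 1) y x) z) x =
        1 / 2 * Mop q c (fun z => Es (s + 1) y z - Es s0 y z) x := by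
      intro x
      rw [← rPLF_Mop]
      congr 1
      funext z
      rw [hg (s + 1) (by omega) z, hg s0 (by omega) z]
      ring
    have e3 : ∀ x, Mop q c (fun z => fr s z * Ds s (fun x => 1 / 2 * Es (S + 1) y x) z) x =
        1 / 2 * Mop q c (fun z => fr s z * Ds s y z) x := by
      intro x
      rw [← rPLF_Mop]
      congr 1
      funext z
      simp only [Ds]
      rw [hg (s + 1) (by omega) z, hg s (by omega) z]
      ring
    ext x
    simp only [BdS, Set.mem_setOf_eq]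
    rw [e1, e2, e3, rPLF_half, rPLF_half, rPLF_half]

end Pool.Agent.helper90.DH
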